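import Pool.Agent.W732.Ud.Stm

/-!
# Locally uniform limits of holomorphic functions on normed spaces
-/

set_option autoImplicit false

namespace Pool.Agent.W366.UD

open Metric Filter Topology Asymptotics

theorem cauchy1 {φ : ℂ → ℂ} {R K : ℝ} (hd : DifferentiableOn ℂ φ (ball 0 (R + 1)))
    (hb : ∀ z ∈ ball (0 : ℂ) (R + 1), ‖φ z‖ ≤ K) : ∀ z ∈ ball (0 : ℂ) R, ‖deriv φ z‖ ≤ K := by
  intro z hz
  have hsub : closedBall z 1 ⊆ ball (0 : ℂ) (R + 1) := by
    intro y hy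
    rw [mem_ball_zero_iff] at hz ⊢
    rw [mem_closedBall, dist_eq_norm] at hy
    calc ‖y‖ = ‖(y - z) + z‖ := by rw [sub_add_cancel]
      _ ≤ ‖y - z‖ + ‖z‖ := norm_add_le _ _
      _ < R + 1 := by linarith
  have h1 : DiffContOnCl ℂ φ (ball z 1) :=
    DifferentiableOn.diffContOnCl ((hd.mono hsub).mono closure_ball_subset_closedBall)
  have h2 := Complex.norm_deriv_le_of_forall_mem_sphere_norm_le one_pos h1
    fun y hy => hb y (hsub (sphere_subset_closedBall hy))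
  rwa [div_one] at h2

theorem rem1 {φ : ℂ → ℂ} {K : ℝ} (hd : DifferentiableOn ℂ φ (ball 0 4))
    (hb : ∀ z ∈ ball (0 : ℂ) 4, ‖φ z‖ ≤ K) (t : ℂ) (ht : ‖t‖ ≤ 1) :
    ‖φ t - φ 0 - deriv φ 0 * t‖ ≤ K * ‖t‖ ^ 2 := by
  have e4 : (4 : ℝ) = 3 + 1 := by norm_num
  have e3 : (3 : ℝ) = 2 + 1 := by norm_num
  have h1 : ∀ z ∈ ball (0 : ℂ) 3, ‖deriv φ z‖ ≤ K := by
    rw [e4] at hd hb
    exact cauchy1 hd hb
  have hd1 : DifferentiableOn ℂ (deriv φ) (ball 0 4) := hd.deriv isOpen_ball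
  have h2 : ∀ z ∈ ball (0 : ℂ) 2, ‖deriv (deriv φ) z‖ ≤ K := by
    have hd2 : DifferentiableOn ℂ (deriv φ) (ball 0 3) := hd1.mono (ball_subset_ball (by norm_num))
    rw [e3] at hd2 h1
    exact cauchy1 hd2 h1
  have h3 : ∀ z ∈ ball (0 : ℂ) 2, ‖deriv φ z - deriv φ 0‖ ≤ K * ‖z‖ := by
    intro z hz
    have h4 := Convex.norm_image_sub_le_of_norm_deriv_le (𝕜 := ℂ) (f := deriv φ) (C := K)
      (s := ball (0 : ℂ) 2) (x := 0) (y := z) (fun y hy => hd1.differentiableAt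
        (isOpen_ball.mem_nhds (ball_subset_ball (by norm_num) hy))) h2 (convex_ball _ _)
        (mem_ball_self (by norm_num)) hz
    rwa [sub_zero] at h4
  have hK : 0 ≤ K := (norm_nonneg _).trans (hb 0 (mem_ball_self (by norm_num)))
  have h5 : ∀ z ∈ closedBall (0 : ℂ) ‖t‖, HasDerivWithinAt (fun z => φ z - deriv φ 0 * z)
      (deriv φ z - deriv φ 0) (closedBall (0 : ℂ) ‖t‖) z := by
    intro z hz
    have hz4 : z ∈ ball (0 : ℂ) 4 := by
      rw [mem_closedBall_zero_iff] at hz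
      rw [mem_ball_zero_iff]
      linarith
    have h6 : HasDerivAt φ (deriv φ z) z :=
      (hd.differentiableAt (isOpen_ball.mem_nhds hz4)).hasDerivAt
    have h7 : HasDerivAt (fun z : ℂ => deriv φ 0 * z) (deriv φ 0) z := by
      have h8 := (hasDerivAt_id z).const_mul (deriv φ 0)
      rwa [mul_one] at h8
    exact (h6.sub h7).hasDerivWithinAt
  have h6 := Convex.norm_image_sub_le_of_norm_hasDerivWithin_le (𝕜 := ℂ) (C := K * ‖t‖)
    (x := 0) (y := t) h5 (fun z hz => by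
      rw [mem_closedBall_zero_iff] at hz
      refine (h3 z (by rw [mem_ball_zero_iff]; linarith)).trans ?_
      exact mul_le_mul_of_nonneg_left hz hK) (convex_closedBall _ _)
      (mem_closedBall_self (norm_nonneg t)) (by rw [mem_closedBall_zero_iff])
  have e : φ t - deriv φ 0 * t - (φ 0 - deriv φ 0 * 0) = φ t - φ 0 - deriv φ 0 * t := by ring
  rw [e, sub_zero] at h6
  calc _ ≤ K * ‖t‖ * ‖t‖ := h6
    _ = K * ‖t‖ ^ 2 := by ring

variable {E : Type} [NormedAddCommGroup E] [NormedSpace ℂ E]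

theorem line_diff {f : E → ℂ} {U : Set E} (hU : IsOpen U) (hf : DifferentiableOn ℂ f U) (x h : E) :
    DifferentiableOn ℂ (fun ζ : ℂ => f (x + ζ • h)) {ζ | x + ζ • h ∈ U} := by
  intro ζ hζ
  have h1 : DifferentiableAt ℂ f (x + ζ • h) := hf.differentiableAt (hU.mem_nhds hζ)
  have h2 : DifferentiableAt ℂ (fun ζ : ℂ => x + ζ • h) ζ :=
    (differentiableAt_const x).add (differentiableAt_id.smul_const h)
  exact (DifferentiableAt.comp ζ h1 h2).differentiableWithinAt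

theorem line_deriv {f : E → ℂ} {x : E} (hf : DifferentiableAt ℂ f x) (h : E) :
    deriv (fun ζ : ℂ => f (x + ζ • h)) 0 = fderiv ℂ f x h := by
  have h2 : HasDerivAt (fun ζ : ℂ => x + ζ • h) h 0 := by
    have h3 := ((hasDerivAt_id (0 : ℂ)).smul_const h).const_add x
    rwa [one_smul] at h3
  have h1 : HasFDerivAt f (fderiv ℂ f x) (x + (0 : ℂ) • h) := by
    rw [zero_smul, add_zero]
    exact hf.hasFDerivAt
  exact (h1.comp_hasDerivAt (0 : ℂ) h2).deriv

theorem rem2 {f : E → ℂ} {x : E} {r K : ℝ} (hr : 0 < r) (hd : DifferentiableOn ℂ f (ball x (4 * r)))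
    (hb : ∀ z ∈ ball x (4 * r), ‖f z‖ ≤ K) (h : E) (hh : ‖h‖ ≤ r) :
    ‖f (x + h) - f x - fderiv ℂ f x h‖ ≤ K / r ^ 2 * ‖h‖ ^ 2 := by
  by_cases h0 : h = 0
  · subst h0
    simp
  have hn : 0 < ‖h‖ := norm_pos_iff.2 h0
  have hx : DifferentiableAt ℂ f x := hd.differentiableAt (ball_mem_nhds x (by positivity))
  set v : E := ((r / ‖h‖ : ℝ) : ℂ) • h with hv
  have hvn : ‖v‖ = r := by
    rw [hv, norm_smul, Complex.norm_real, Real.norm_eq_abs, abs_of_pos (by positivity),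
      div_mul_cancel₀ _ hn.ne']
  have hmem : ∀ ζ ∈ ball (0 : ℂ) 4, x + ζ • v ∈ ball x (4 * r) := by
    intro ζ hζ
    rw [mem_ball_zero_iff] at hζ
    rw [mem_ball, dist_eq_norm, add_sub_cancel_left, norm_smul, hvn]
    exact mul_lt_mul_of_pos_right hζ hr
  have h1 := rem1 (φ := fun ζ : ℂ => f (x + ζ • v)) (K := K)
    ((line_diff isOpen_ball hd x v).mono hmem) (fun ζ hζ => hb _ (hmem ζ hζ))
    ((‖h‖ / r : ℝ) : ℂ) (by
      rw [Complex.norm_real, Real.norm_eq_abs, abs_of_pos (by positivity)]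
      rw [div_le_one hr]; exact hh)
  have e1 : (((‖h‖ / r : ℝ) : ℂ)) • v = h := by
    rw [hv, smul_smul, ← Complex.ofReal_mul, div_mul_div_comm, mul_comm r, div_self (by positivity),
      Complex.ofReal_one, one_smul]
  have e2 : deriv (fun ζ : ℂ => f (x + ζ • v)) 0 * ((‖h‖ / r : ℝ) : ℂ) = fderiv ℂ f x h := by
    rw [line_deriv hx, mul_comm, ← smul_eq_mul, ← map_smul, e1]
  rw [e2, e1, zero_smul, add_zero, Complex.norm_real, Real.norm_eq_abs, sq_abs] at h1
  calc _ ≤ K * (‖h‖ / r) ^ 2 := h1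
    _ = K / r ^ 2 * ‖h‖ ^ 2 := by rw [div_pow]; ring

theorem fderiv_bound {f : E → ℂ} {x : E} {r K : ℝ} (hr : 0 < r)
    (hd : DifferentiableOn ℂ f (ball x (4 * r)))
    (hb : ∀ z ∈ ball x (4 * r), ‖f z‖ ≤ K) : ‖fderiv ℂ f x‖ ≤ 3 * K / r := by
  have hx : DifferentiableAt ℂ f x := hd.differentiableAt (ball_mem_nhds x (by positivity))
  have hK : 0 ≤ K := (norm_nonneg _).trans (hb x (mem_ball_self (by positivity)))
  refine ContinuousLinearMap.opNorm_le_bound _ (by positivity) fun h => ?_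
  by_cases h0 : h = 0
  · subst h0
    simp
  have hn : 0 < ‖h‖ := norm_pos_iff.2 h0
  set v : E := ((r / ‖h‖ : ℝ) : ℂ) • h with hv
  have hvn : ‖v‖ = r := by
    rw [hv, norm_smul, Complex.norm_real, Real.norm_eq_abs, abs_of_pos (by positivity),
      div_mul_cancel₀ _ hn.ne']
  have h1 := rem2 hr hd hb v hvn.le
  have h2 : ‖f (x + v)‖ ≤ K := hb _ (by
    rw [mem_ball, dist_eq_norm, add_sub_cancel_left, hvn]
    linarith)
  have h3 : ‖f x‖ ≤ K := hb x (mem_ball_self (by positivity))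
  have h4 : ‖fderiv ℂ f x v‖ ≤ 3 * K := by
    have e : fderiv ℂ f x v = f (x + v) - f x - (f (x + v) - f x - fderiv ℂ f x v) := by ring
    rw [hvn, div_mul_cancel₀ _ (by positivity)] at h1
    rw [e]
    calc _ ≤ ‖f (x + v) - f x‖ + ‖f (x + v) - f x - fderiv ℂ f x v‖ := norm_sub_le _ _
      _ ≤ ‖f (x + v)‖ + ‖f x‖ + K := add_le_add (norm_sub_le _ _) h1
      _ ≤ 3 * K := by linarith
  have e1 : fderiv ℂ f x v = ((r / ‖h‖ : ℝ) : ℂ) * fderiv ℂ f x h := by
    rw [hv, map_smul, smul_eq_mul]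
  rw [e1, norm_mul, Complex.norm_real, Real.norm_eq_abs, abs_of_pos (by positivity)] at h4
  rw [div_mul_eq_mul_div, div_le_iff₀ hn] at h4
  rw [div_mul_eq_mul_div, le_div_iff₀ hr, mul_comm]
  exact h4

theorem lu : Pool.Agent.W732.Ud.S_lu := by
  intro E _ _ H hH f g hf hfg x hx
  apply DifferentiableAt.differentiableWithinAt
  obtain ⟨O, hO, hOf⟩ := hf x hx
  obtain ⟨t, ht, htf⟩ := Metric.tendstoLocallyUniformlyOn_iff.1 hfg 1 one_pos x hx
  rw [hH.nhdsWithin_eq hx] at ht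
  obtain ⟨n1, hn1⟩ := eventually_atTop.1 (htf.and hOf)
  have hOH : O ∩ H ∈ 𝓝 x := inter_mem hO (hH.mem_nhds hx)
  have hcont : ContinuousAt (f n1) x := ((hn1 n1 le_rfl).2.differentiableAt hOH).continuousAt
  have hW : {y | dist (f n1 y) (f n1 x) < 1} ∈ 𝓝 x := hcont (ball_mem_nhds _ one_pos)
  obtain ⟨ρ, hρ, hball⟩ := Metric.mem_nhds_iff.1 (inter_mem (inter_mem hOH ht) hW)
  set r : ℝ := ρ / 4 with hr'
  have hr : 0 < r := by positivity
  have hρr : ρ = 4 * r := by rw [hr']; ring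
  rw [hρr] at hball
  set K : ℝ := ‖f n1 x‖ + 3 with hK
  have hb : ∀ n, n1 ≤ n → ∀ y ∈ ball x (4 * r), ‖f n y‖ ≤ K := by
    intro n hn y hy
    have h1 := (hn1 n hn).1 y (hball hy).1.2
    have h2 := (hn1 n1 le_rfl).1 y (hball hy).1.2
    have h3 : dist (f n1 y) (f n1 x) < 1 := (hball hy).2
    have h4 : dist (f n y) 0 ≤ dist (f n y) (g y) + dist (g y) (f n1 y) +
        dist (f n1 y) (f n1 x) + dist (f n1 x) 0 := by
      refine (dist_triangle4 (f n y) (g y) (f n1 y) 0).trans ?_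
      have h5 := dist_triangle (f n1 y) (f n1 x) 0
      linarith
    rw [dist_zero_right, dist_zero_right, dist_comm (f n y)] at h4
    linarith
  have hd : ∀ n, n1 ≤ n → DifferentiableOn ℂ (f n) (ball x (4 * r)) := fun n hn =>
    (hn1 n hn).2.mono fun y hy => (hball hy).1.1
  have hBH : ball x (4 * r) ⊆ H := fun y hy => (hball hy).1.1.2
  have hxB : x ∈ ball x (4 * r) := mem_ball_self (by positivity)
  have hdx : ∀ n, n1 ≤ n → DifferentiableAt ℂ (f n) x := fun n hn =>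
    (hd n hn).differentiableAt (isOpen_ball.mem_nhds hxB)
  have hlim : ∀ h : E, Tendsto (fun n => fderiv ℂ (f (n + n1)) x h) atTop
      (𝓝 (deriv (fun ζ : ℂ => g (x + ζ • h)) 0)) := by
    intro h
    have hc : Continuous fun ζ : ℂ => x + ζ • h := by fun_prop
    have hU : IsOpen {ζ : ℂ | x + ζ • h ∈ ball x (4 * r)} := isOpen_ball.preimage hc
    have h1 : TendstoLocallyUniformlyOn (fun n => fun ζ : ℂ => f n (x + ζ • h))
        (fun ζ : ℂ => g (x + ζ • h)) atTop {ζ : ℂ | x + ζ • h ∈ ball x (4 * r)} :=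
      hfg.comp (fun ζ : ℂ => x + ζ • h) (fun ζ hζ => hBH hζ) hc.continuousOn
    have h2 := h1.deriv ((eventually_ge_atTop n1).mono fun n hn =>
      line_diff isOpen_ball (hd n hn) x h) hU
    have h3 := (h2.tendsto_at (a := (0 : ℂ)) (by
      change x + (0 : ℂ) • h ∈ ball x (4 * r)
      rw [zero_smul, add_zero]
      exact hxB)).comp (tendsto_add_atTop_nat n1)
    refine h3.congr fun n => ?_
    exact line_deriv (hdx (n + n1) (Nat.le_add_left _ _)) h
  have hbd : Bornology.IsBounded (Set.range fun n => fderiv ℂ (f (n + n1)) x) := by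
    rw [isBounded_iff_forall_norm_le]
    refine ⟨3 * K / r, ?_⟩
    rintro _ ⟨n, rfl⟩
    exact fderiv_bound hr (hd _ (Nat.le_add_left _ _)) (hb _ (Nat.le_add_left _ _))
  set L : E →L[ℂ] ℂ := ContinuousLinearMap.ofTendstoOfBoundedRange
    (fun h => deriv (fun ζ : ℂ => g (x + ζ • h)) 0) (fun n => fderiv ℂ (f (n + n1)) x)
    (tendsto_pi_nhds.2 hlim) hbd with hL
  have hLlim : ∀ h : E, Tendsto (fun n => fderiv ℂ (f (n + n1)) x h) atTop (𝓝 (L h)) := hlim
  have hglim : ∀ y ∈ ball x (4 * r), Tendsto (fun n => f (n + n1) y) atTop (𝓝 (g y)) :=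
    fun y hy => (hfg.tendsto_at (hBH hy)).comp (tendsto_add_atTop_nat n1)
  have hrem : ∀ h : E, ‖h‖ ≤ r → ‖g (x + h) - g x - L h‖ ≤ K / r ^ 2 * ‖h‖ ^ 2 := by
    intro h hh
    have hxh : x + h ∈ ball x (4 * r) := by
      rw [mem_ball, dist_eq_norm, add_sub_cancel_left]
      linarith
    refine le_of_tendsto (((hglim _ hxh).sub (hglim x hxB)).sub (hLlim h)).norm
      (Eventually.of_forall fun n => ?_)
    exact rem2 hr (hd _ (Nat.le_add_left _ _)) (hb _ (Nat.le_add_left _ _)) h hh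
  have hF : HasFDerivAt g L x := by
    rw [hasFDerivAt_iff_isLittleO_nhds_zero]
    refine IsBigO.trans_isLittleO (g := fun h : E => ‖h‖ ^ 2) ?_ (isLittleO_norm_pow_id one_lt_two)
    refine IsBigO.of_bound (K / r ^ 2) ?_
    filter_upwards [closedBall_mem_nhds (0 : E) hr] with h hh
    rw [mem_closedBall_zero_iff] at hh
    rw [Real.norm_eq_abs, abs_of_nonneg (by positivity)]
    exact hrem h hh
  exact hF.differentiableAt

end Pool.Agent.W366.UD
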